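import Mathlib

namespace Pool.Agent.Results.MP_6c00f2_co.Cyclic

open Finset

/-- `dim A`: the largest size of a dissociated subset of `A` (distinct subsets have distinct
sums: Mathlib's `AddDissociated`). -/
noncomputable def dimSet {G : Type} [AddCommGroup G] (A : Finset G) : ℕ :=
  sSup {d : ℕ | ∃ B : Finset G, B ⊆ A ∧ AddDissociated (B : Set G) ∧ B.card = d}

/-- `dim (G, m)`: the least dimension of an `m`-element subset of `G`. -/
noncomputable def dimMin (G : Type) [AddCommGroup G] (m : ℕ) : ℕ :=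
  sInf {d : ℕ | ∃ A : Finset G, A.card = m ∧ dimSet A = d}

lemma bound (c : ℕ → ℤ) (hc : ∀ i, |c i| ≤ 1) (k : ℕ) :
    |∑ i ∈ range k, c i * 2 ^ i| < 2 ^ k := by
  induction k with
  | zero => simp
  | succ k ih =>
    rw [sum_range_succ, pow_succ]
    have h1 : |c k * 2 ^ k| ≤ 2 ^ k := by
      rw [abs_mul, abs_of_pos (by positivity : (0 : ℤ) < 2 ^ k)]
      have := hc k
      have h2 : (0 : ℤ) < 2 ^ k := by positivity
      nlinarith
    have := abs_add_le (∑ i ∈ range k, c i * 2 ^ i) (c k * 2 ^ k)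
    linarith

lemma zero_of_sum (c : ℕ → ℤ) (hc : ∀ i, |c i| ≤ 1) (k : ℕ)
    (h : ∑ i ∈ range k, c i * 2 ^ i = 0) : ∀ i < k, c i = 0 := by
  induction k with
  | zero => intro i hi; omega
  | succ k ih =>
    rw [sum_range_succ] at h
    have hb := bound c hc k
    have h2 : (0 : ℤ) < 2 ^ k := by positivity
    have hk : c k = 0 := by
      by_contra hne
      have h3 : 1 ≤ |c k| := Int.one_le_abs hne
      have h4 : ∑ i ∈ range k, c i * 2 ^ i = -(c k * 2 ^ k) := by linarith
      rw [h4, abs_neg, abs_mul, abs_of_pos h2] at hb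
      nlinarith
    rw [hk, zero_mul, add_zero] at h
    intro i hi
    rcases Nat.lt_succ_iff_lt_or_eq.mp hi with h5 | h5
    · exact ih h i h5
    · rw [h5]; exact hk

lemma small_zero (n : ℕ) (z : ℤ) (hz : |z| < n) (h : ((z : ℤ) : ZMod n) = 0) : z = 0 := by
  rw [ZMod.intCast_zmod_eq_zero_iff_dvd] at h
  exact Int.eq_zero_of_abs_lt_dvd h hz

lemma dissoc (n k : ℕ) (hn : 2 ^ k ≤ n) (u : ZMod n) (hu : IsUnit u) (s : ℕ → ℤ)
    (hs : ∀ i, s i = 1 ∨ s i = -1) :
    AddDissociated (((range k).image (fun i => (s i : ZMod n) * 2 ^ i * u) :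
      Finset (ZMod n)) : Set (ZMod n)) ∧
    ((range k).image (fun i => (s i : ZMod n) * 2 ^ i * u)).card = k := by
  set g : ℕ → ZMod n := fun i => (s i : ZMod n) * 2 ^ i * u with hg
  have key : ∀ I J : Finset ℕ, I ⊆ range k → J ⊆ range k → ∑ i ∈ I, g i = ∑ i ∈ J, g i →
      I = J := by
    intro I J hI hJ hIJ
    set c : ℕ → ℤ := fun i => s i * ((if i ∈ I then 1 else 0) - (if i ∈ J then 1 else 0)) with hc
    have hc1 : ∀ i, |c i| ≤ 1 := by
      intro i
      simp only [hc]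
      rcases hs i with h | h <;> rw [h] <;> split_ifs <;> simp
    have e1 : ∀ L : Finset ℕ, L ⊆ range k →
        ∑ i ∈ L, g i = ∑ i ∈ range k, (if i ∈ L then g i else 0) := by
      intro L hL
      rw [← sum_filter, filter_mem_eq_inter, inter_eq_right.mpr hL]
    have e2 : ((∑ i ∈ range k, c i * 2 ^ i : ℤ) : ZMod n) * u = 0 := by
      have : ((∑ i ∈ range k, c i * 2 ^ i : ℤ) : ZMod n) * u
          = ∑ i ∈ range k, (if i ∈ I then g i else 0)
            - ∑ i ∈ range k, (if i ∈ J then g i else 0) := by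
        rw [← sum_sub_distrib]
        push_cast
        rw [sum_mul]
        apply sum_congr rfl
        intro i _
        simp only [hc, hg]
        split_ifs <;> push_cast <;> ring
      rw [this, ← e1 I hI, ← e1 J hJ, hIJ, sub_self]
    have e3 := (hu.mul_left_eq_zero).mp e2
    have hn' : (2 : ℤ) ^ k ≤ n := by exact_mod_cast hn
    have e4 := small_zero n _ (by have := bound c hc1 k; linarith) e3
    have e5 := zero_of_sum c hc1 k e4
    ext i
    by_cases hi : i < k
    · have := e5 i hi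
      simp only [hc] at this
      rcases hs i with h | h <;> rw [h] at this <;> split_ifs at this <;> simp_all
    · constructor
      · intro h; exact absurd (mem_range.mp (hI h)) hi
      · intro h; exact absurd (mem_range.mp (hJ h)) hi
  have inj : Set.InjOn g (range k : Finset ℕ) := by
    intro i hi j hj hij
    have := key {i} {j} (by simpa using hi) (by simpa using hj) (by simpa using hij)
    simpa using this
  refine ⟨?_, by rw [card_image_of_injOn inj, card_range]⟩
  intro t1 h1 t2 h2 h12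
  have h1' : t1 ⊆ (range k).image g := by simpa [← coe_subset] using h1
  have h2' : t2 ⊆ (range k).image g := by simpa [← coe_subset] using h2
  obtain ⟨I, hI, rfl⟩ := subset_image_iff.mp h1'
  obtain ⟨J, hJ, rfl⟩ := subset_image_iff.mp h2'
  simp only at h12
  rw [sum_image (inj.mono (by exact_mod_cast hI)), sum_image (inj.mono (by exact_mod_cast hJ))]
    at h12
  rw [key I J hI hJ h12]

lemma two_pow_k (k : ℕ) : (2 : ZMod (2 ^ k + 1)) ^ k = -1 := by
  have h : ((2 ^ k + 1 : ℕ) : ZMod (2 ^ k + 1)) = 0 := ZMod.natCast_self _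
  push_cast at h
  exact eq_neg_of_add_eq_zero_left h

lemma two_unit (k : ℕ) (hk : 1 ≤ k) : IsUnit (2 : ZMod (2 ^ k + 1)) := by
  have h := two_pow_k k
  have h2 : IsUnit ((2 : ZMod (2 ^ k + 1)) ^ k) := by rw [h]; exact isUnit_one.neg
  exact (isUnit_pow_iff (by omega)).mp h2

lemma not_pow (k : ℕ) (hk : 4 ≤ k) (w : ℤ) (hw : w = 3 ∨ w = 5 ∨ w = -3 ∨ w = -5) (d : ℕ)
    (hd : d < k) : (2 : ZMod (2 ^ k + 1)) ^ d ≠ (w : ZMod (2 ^ k + 1)) := by
  intro h
  have h1 : ((2 ^ d - w : ℤ) : ZMod (2 ^ k + 1)) = 0 := by push_cast; rw [h, sub_self]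
  have h2 : (2 : ℤ) ^ d * 2 ≤ 2 ^ k := by
    rw [← pow_succ]; exact pow_le_pow_right₀ (by norm_num) (by omega)
  have h3 : (2 : ℤ) ^ 4 ≤ 2 ^ k := pow_le_pow_right₀ (by norm_num) hk
  have h4 : (0 : ℤ) < 2 ^ d := by positivity
  have h5 := small_zero (2 ^ k + 1) _ (by
    push_cast
    rw [abs_lt]; constructor <;> rcases hw with h | h | h | h <;> rw [h] <;> omega) h1
  rcases d with _ | d
  · rcases hw with h | h | h | h <;> rw [h] at h5 <;> norm_num at h5
  · rw [pow_succ] at h5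
    rcases hw with h | h | h | h <;> rw [h] at h5 <;> omega

lemma not_eq (k : ℕ) (hk : 4 ≤ k) (w : ℤ) (hw : w = 3 ∨ w = 5 ∨ w = -3 ∨ w = -5) (i j : ℕ)
    (hi : i < k) (hj : j < k) :
    (2 : ZMod (2 ^ k + 1)) ^ i ≠ 2 ^ j * (w : ZMod (2 ^ k + 1)) := by
  intro h
  have hu := two_unit k (by omega)
  rcases le_or_gt j i with hji | hji
  · obtain ⟨d, rfl⟩ := Nat.exists_eq_add_of_le hji
    rw [pow_add] at h
    exact not_pow k hk w hw d (by omega) ((hu.pow j).mul_left_cancel h)
  · apply not_pow k hk (-w) (by omega) (k - j + i) (by omega)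
    have e : (2 : ZMod (2 ^ k + 1)) ^ (k - j) * 2 ^ j = -1 := by
      rw [← pow_add, Nat.sub_add_cancel hj.le, two_pow_k]
    rw [pow_add, h, ← mul_assoc, e]
    push_cast
    ring

lemma exists_w (k : ℕ) : ∃ w : ℤ, (w = 3 ∨ w = 5) ∧ IsUnit (w : ZMod (2 ^ k + 1)) := by
  rcases Nat.even_or_odd' k with ⟨j, hj | hj⟩
  · refine ⟨3, Or.inl rfl, ?_⟩
    have : IsUnit ((3 : ℕ) : ZMod (2 ^ k + 1)) := by
      rw [ZMod.isUnit_iff_coprime, Nat.Prime.coprime_iff_not_dvd Nat.prime_three]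
      have h : 2 ^ k % 3 = 1 := by
        rw [hj, pow_mul, Nat.pow_mod]; norm_num
      omega
    simpa using this
  · refine ⟨5, Or.inr rfl, ?_⟩
    have : IsUnit ((5 : ℕ) : ZMod (2 ^ k + 1)) := by
      rw [ZMod.isUnit_iff_coprime, Nat.Prime.coprime_iff_not_dvd Nat.prime_five]
      have h : ∀ j : ℕ, 2 ^ (2 * j + 1) % 5 = 2 ∨ 2 ^ (2 * j + 1) % 5 = 3 := by
        intro j
        induction j with
        | zero => norm_num
        | succ j ih =>
          have : 2 ^ (2 * (j + 1) + 1) = 4 * 2 ^ (2 * j + 1) := by ring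
          omega
      have := h j
      rw [← hj] at this
      omega
    simpa using this

lemma card_le (n : ℕ) [NeZero n] (B : Finset (ZMod n))
    (hB : AddDissociated (B : Set (ZMod n))) : B.card ≤ Nat.log 2 n := by
  have h : B.powerset.card ≤ (univ : Finset (ZMod n)).card := by
    apply card_le_card_of_injOn (fun t => ∑ x ∈ t, x) (fun _ _ => mem_univ _)
    intro t1 h1 t2 h2 h12
    exact hB (by simpa using h1) (by simpa using h2) h12
  rw [card_powerset, card_univ, ZMod.card] at h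
  exact Nat.le_log_of_pow_le (by norm_num) h

lemma of_unit (n k : ℕ) (hn : 2 ^ k ≤ n) (A : Finset (ZMod n)) (u : ZMod n) (hu : IsUnit u)
    (h : ∀ i < k, 2 ^ i * u ∈ A ∨ -(2 ^ i * u) ∈ A) :
    ∃ B : Finset (ZMod n), B ⊆ A ∧ AddDissociated (B : Set (ZMod n)) ∧ B.card = k := by
  obtain ⟨h1, h2⟩ := dissoc n k hn u hu (fun i => if 2 ^ i * u ∈ A then 1 else -1)
    (fun i => by split_ifs <;> simp)
  refine ⟨_, ?_, h1, h2⟩
  intro x hx
  obtain ⟨i, hi, rfl⟩ := mem_image.mp hx
  split_ifs with h3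
  · simpa using h3
  · have := (h i (mem_range.mp hi)).resolve_left h3
    simpa using this

lemma exists_odd (n : ℕ) [NeZero n] (hn : Odd n) (A : Finset (ZMod n))
    (hA : (n - A.card) * Nat.log 2 n < Nat.totient n) :
    ∃ B : Finset (ZMod n), B ⊆ A ∧ AddDissociated (B : Set (ZMod n)) ∧ B.card = Nat.log 2 n := by
  classical
  have hu : IsUnit (2 : ZMod n) := by
    have : IsUnit ((2 : ℕ) : ZMod n) := by
      rw [ZMod.isUnit_iff_coprime]
      exact (Nat.coprime_two_left).mpr hn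
    simpa using this
  set k := Nat.log 2 n with hk
  have hbad : ((range k).biUnion
      (fun i => (univ : Finset (ZMod n)ˣ).filter (fun u : (ZMod n)ˣ => 2 ^ i * (u : ZMod n) ∉ A))).card
      < (univ : Finset (ZMod n)ˣ).card := by
    rw [card_univ, ZMod.card_units_eq_totient]
    refine lt_of_le_of_lt ?_ hA
    refine le_trans (card_biUnion_le_card_mul _ _ (n - A.card) ?_) (by rw [card_range, mul_comm])
    intro i _
    have : n - A.card = (Aᶜ).card := by rw [card_compl, ZMod.card]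
    rw [this]
    apply card_le_card_of_injOn (fun u : (ZMod n)ˣ => 2 ^ i * (u : ZMod n))
    · intro u hu'
      simpa using hu'
    · intro u _ v _ huv
      exact Units.ext ((hu.pow i).mul_left_cancel huv)
  obtain ⟨u, -, hu2⟩ := exists_mem_notMem_of_card_lt_card hbad
  apply of_unit n k (Nat.pow_log_le_self 2 (NeZero.ne n)) A u u.isUnit
  intro i hi
  left
  by_contra hne
  apply hu2
  rw [mem_biUnion]
  exact ⟨i, mem_range.mpr hi, by simpa using hne⟩

lemma dimMin_eq (n m : ℕ) [NeZero n] (hm : m ≤ n)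
    (h : ∀ A : Finset (ZMod n), A.card = m → ∃ B : Finset (ZMod n), B ⊆ A ∧
      AddDissociated (B : Set (ZMod n)) ∧ B.card = Nat.log 2 n) :
    dimMin (ZMod n) m = Nat.log 2 n := by
  have hdim : ∀ A : Finset (ZMod n), A.card = m → dimSet A = Nat.log 2 n := by
    intro A hA
    apply IsGreatest.csSup_eq
    constructor
    · exact h A hA
    · rintro d ⟨B, -, hB, rfl⟩
      exact card_le n B hB
  apply IsLeast.csInf_eq
  constructor
  · obtain ⟨A, -, hA⟩ := exists_subset_card_eq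
      (s := (univ : Finset (ZMod n))) (n := m) (by rw [card_univ, ZMod.card]; omega)
    exact ⟨A, hA, hdim A hA⟩
  · rintro d ⟨A, hA, rfl⟩
    exact (hdim A hA).ge

lemma exists_B (k : ℕ) (hk : 4 ≤ k) (A : Finset (ZMod (2 ^ k + 1))) (hA : 2 ^ k ≤ A.card + 2) :
    ∃ B : Finset (ZMod (2 ^ k + 1)), B ⊆ A ∧ AddDissociated (B : Set (ZMod (2 ^ k + 1))) ∧
      B.card = k := by
  obtain ⟨w, hw, hwu⟩ := exists_w k
  by_cases h1 : ∀ i < k, 2 ^ i * (1 : ZMod (2 ^ k + 1)) ∈ A ∨ -(2 ^ i * 1) ∈ A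
  · exact of_unit _ k (by omega) A 1 isUnit_one h1
  by_cases h2 : ∀ i < k, 2 ^ i * (w : ZMod (2 ^ k + 1)) ∈ A ∨ -(2 ^ i * (w : ZMod (2 ^ k + 1))) ∈ A
  · exact of_unit _ k (by omega) A w hwu h2
  exfalso
  push Not at h1 h2
  obtain ⟨i, hi, a1, a2⟩ := h1
  obtain ⟨j, hj, b1, b2⟩ := h2
  rw [mul_one] at a1 a2
  have hu := two_unit k (by omega)
  haveI : Fact (1 < 2 ^ k + 1) := ⟨by have : 0 < 2 ^ k := by positivity
                                      omega⟩
  have neg_ne : ∀ x : ZMod (2 ^ k + 1), IsUnit x → x ≠ -x := by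
    intro x hx h
    have : (2 : ZMod (2 ^ k + 1)) * x = 0 := by linear_combination h
    exact (hu.mul hx).ne_zero this
  have n1 := neg_ne _ (hu.pow i)
  have n2 := neg_ne _ ((hu.pow j).mul hwu)
  have n3 := not_eq k hk w (by omega) i j hi hj
  have n4 : (2 : ZMod (2 ^ k + 1)) ^ i ≠ -(2 ^ j * (w : ZMod (2 ^ k + 1))) := by
    have := not_eq k hk (-w) (by omega) i j hi hj
    intro h; apply this; rw [h]; push_cast; ring
  have n5 : -(2 : ZMod (2 ^ k + 1)) ^ i ≠ 2 ^ j * (w : ZMod (2 ^ k + 1)) := by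
    intro h; apply n4; rw [← h, neg_neg]
  have n6 : -(2 : ZMod (2 ^ k + 1)) ^ i ≠ -(2 ^ j * (w : ZMod (2 ^ k + 1))) := by
    intro h; exact n3 (neg_injective h)
  have hsub : ({2 ^ i, -2 ^ i, 2 ^ j * (w : ZMod (2 ^ k + 1)), -(2 ^ j * (w : ZMod (2 ^ k + 1)))} :
      Finset (ZMod (2 ^ k + 1))) ⊆ Aᶜ := by
    intro x hx
    simp only [mem_insert, mem_singleton] at hx
    rw [mem_compl]
    rcases hx with rfl | rfl | rfl | rfl <;> assumption
  have hc := card_le_card hsub
  rw [card_compl, ZMod.card, card_insert_of_notMem (by simp [n1, n3, n4]),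
    card_insert_of_notMem (by simp only [mem_insert, mem_singleton, not_or]; exact ⟨n5, n6⟩),
    card_pair n2] at hc
  omega

theorem result :
    (∀ n m : ℕ, Odd n → m ≤ n → (n - m) * Nat.log 2 n < Nat.totient n →
      dimMin (ZMod n) m = Nat.log 2 n) ∧
    (∀ k m : ℕ, 4 ≤ k → (m = 2 ^ k - 2 ∨ m = 2 ^ k - 1) →
      1 ≤ m ∧ m ≤ 2 ^ k + 1 ∧ dimMin (ZMod (2 ^ k + 1)) m = k ∧ Nat.log 2 m = k - 1 ∧
        dimMin (ZMod (2 ^ k + 1)) m ≠ Nat.log 2 m) := by
  constructor
  · intro n m hn hm h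
    haveI : NeZero n := ⟨hn.pos.ne'⟩
    apply dimMin_eq n m hm
    intro A hA
    exact exists_odd n hn A (by rw [hA]; exact h)
  intro k m hk hm
  have h16 : 2 ^ 4 ≤ 2 ^ k := Nat.pow_le_pow_right (by norm_num) hk
  have hl : Nat.log 2 (2 ^ k + 1) = k := by
    apply Nat.log_eq_of_pow_le_of_lt_pow
    · omega
    · rw [pow_succ]; omega
  have h1 : dimMin (ZMod (2 ^ k + 1)) m = k := by
    rw [dimMin_eq (2 ^ k + 1) m (by omega), hl]
    intro A hA
    rw [hl]
    exact exists_B k hk A (by omega)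
  have h2 : Nat.log 2 m = k - 1 := by
    apply Nat.log_eq_of_pow_le_of_lt_pow
    · obtain ⟨j, rfl⟩ : ∃ j, k = j + 1 := ⟨k - 1, by omega⟩
      rw [pow_succ] at hm h16
      simp only [Nat.add_sub_cancel]
      omega
    · rw [Nat.sub_add_cancel (by omega)]
      omega
  refine ⟨by omega, by omega, h1, h2, by omega⟩

end Pool.Agent.Results.MP_6c00f2_co.Cyclic
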